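import Pool.Agent.H.MP_153b2f_an.Defs

set_option autoImplicit false

namespace Pool.Agent.H.MP_153b2f_an
open Filter Equiv

variable {X : Type}

def gr (t : Perm X) : Set (X × X) := {p | p.1 = t p.2}

def GG (Λ : Subgroup (Perm X)) : Type := {u : Ultrafilter (X × X) // ∃ t ∈ Λ, gr t ∈ u}

variable {Λ : Subgroup (Perm X)}

instance : TopologicalSpace (GG Λ) := instTopologicalSpaceSubtype
instance : T2Space (GG Λ) := inferInstanceAs (T2Space {u : Ultrafilter (X × X) // ∃ t ∈ Λ, gr t ∈ u})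

theorem open_G : IsOpen {u : Ultrafilter (X × X) | ∃ t ∈ Λ, gr t ∈ u} := by
  have : {u : Ultrafilter (X × X) | ∃ t ∈ Λ, gr t ∈ u} = ⋃ t ∈ Λ, {u | gr t ∈ u} := by
    ext u; simp
  rw [this]
  exact isOpen_biUnion fun t _ => ultrafilter_isOpen_basic _

instance : LocallyCompactSpace (GG Λ) := (open_G (Λ := Λ)).locallyCompactSpace

theorem cont_map {α β : Type} (f : α → β) : Continuous (Ultrafilter.map f) := by
  rw [ultrafilterBasis_is_basis.continuous_iff]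
  rintro _ ⟨s, rfl⟩
  exact ultrafilter_isOpen_basic (f ⁻¹' s)

def B (A : Set (X × X)) : Set (GG Λ) := {g | A ∈ g.1}

theorem B_open (A : Set (X × X)) : IsOpen (B A : Set (GG Λ)) :=
  (ultrafilter_isOpen_basic A).preimage continuous_subtype_val

theorem B_compact {t : Perm X} (ht : t ∈ Λ) : IsCompact (B (gr t) : Set (GG Λ)) := by
  refine Subtype.isCompact_iff.2 ?_
  have : Subtype.val '' (B (gr t) : Set (GG Λ)) = {u | gr t ∈ u} := by
    ext u
    exact ⟨fun ⟨g, hg, h⟩ => h ▸ hg, fun h => ⟨⟨u, t, ht, h⟩, h, rfl⟩⟩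
  exact this ▸ (ultrafilter_isClosed_basic _).isCompact

theorem umap_congr {α β : Type} {u : Ultrafilter α} {f g : α → β} (h : {p | f p = g p} ∈ u) :
    u.map f = u.map g :=
  Ultrafilter.coe_injective (Filter.map_congr h)

theorem ms {α : Type} (u : Ultrafilter α) {A C : Set α} (h : A ∈ u) (hs : ∀ p ∈ A, p ∈ C) : C ∈ u :=
  mem_of_superset h hs

theorem mi {α : Type} {u : Ultrafilter α} {A C : Set α} (h : A ∈ u) (h' : C ∈ u) : A ∩ C ∈ u :=
  inter_mem h h'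

def mp (f : X × X → X × X) (g : GG Λ) (h : ∃ t ∈ Λ, f ⁻¹' gr t ∈ g.1) : GG Λ := ⟨g.1.map f, h⟩

def sG (g : GG Λ) : GG Λ := mp (fun p => (p.2, p.2)) g ⟨1, Λ.one_mem, Filter.univ_mem' fun _ => rfl⟩
def rG (g : GG Λ) : GG Λ := mp (fun p => (p.1, p.1)) g ⟨1, Λ.one_mem, Filter.univ_mem' fun _ => rfl⟩
def iG (g : GG Λ) : GG Λ := mp Prod.swap g (by
  obtain ⟨t, ht, h⟩ := g.2
  refine ⟨t⁻¹, Λ.inv_mem ht, mem_of_superset h fun p hp => ?_⟩
  have h1 : p.1 = t p.2 := hp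
  show p.2 = t⁻¹ p.1
  rw [h1]; simp)
def aG {t : Perm X} (ht : t ∈ Λ) (g : GG Λ) : GG Λ := mp (fun p => (t p.1, p.2)) g (by
  obtain ⟨t', ht', h⟩ := g.2
  refine ⟨t * t', Λ.mul_mem ht ht', mem_of_superset h fun p hp => ?_⟩
  have h1 : p.1 = t' p.2 := hp
  show t p.1 = (t * t') p.2
  rw [h1]; rfl)
noncomputable def mG (g h : GG Λ) : GG Λ := aG (Classical.choose_spec g.2).1 h

theorem key {g h : GG Λ} (e : sG g = rG h) (A : Set X) :
    {p : X × X | p.2 ∈ A} ∈ g.1 ↔ {p : X × X | p.1 ∈ A} ∈ h.1 := by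
  have h1 : {p : X × X | p.1 ∈ A} ∈ (sG g).1 ↔ {p : X × X | p.1 ∈ A} ∈ (rG h).1 := by rw [e]
  exact h1

theorem mG_eq {g h : GG Λ} (e : sG g = rG h) {t : Perm X} (ht : t ∈ Λ) (hg : gr t ∈ g.1) :
    mG g h = aG ht h := by
  apply Subtype.ext
  apply umap_congr
  have h1 := (Classical.choose_spec g.2).2
  have h2 := (key e {y | Classical.choose g.2 y = t y}).1
    (mem_of_superset (inter_mem h1 hg) fun p hp => hp.1.symm.trans hp.2)
  exact mem_of_superset h2 fun p hp => Prod.ext hp rfl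

theorem cont_mp (f : X × X → X × X) (h : ∀ g : GG Λ, ∃ t ∈ Λ, f ⁻¹' gr t ∈ g.1) :
    Continuous fun g : GG Λ => mp f g (h g) :=
  ((cont_map f).comp continuous_subtype_val).subtype_mk _

theorem gr_one_s (g : GG Λ) : gr 1 ∈ (sG g).1 :=
  ms g.1 (C := (fun p => (p.2, p.2)) ⁻¹' gr 1) Filter.univ_mem fun _ _ => rfl
theorem gr_one_r (g : GG Λ) : gr 1 ∈ (rG g).1 :=
  ms g.1 (C := (fun p => (p.1, p.1)) ⁻¹' gr 1) Filter.univ_mem fun _ _ => rfl

theorem ext_id {g h : GG Λ} {f : X × X → X × X} (e : h.1 = g.1.map f) (hf : {p | f p = p} ∈ g.1) :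
    h = g := Subtype.ext (e.trans (umap_congr (g := id) hf))

theorem s_of_unit {g : GG Λ} (h : gr 1 ∈ g.1) : sG g = g :=
  ext_id rfl (mem_of_superset h fun _ hp => Prod.ext (Eq.symm hp) rfl)

theorem sG_loc : IsLocalHomeomorph (sG : GG Λ → GG Λ) := by
  intro g
  obtain ⟨t, ht, h⟩ := g.2
  refine ⟨{ toFun := sG, invFun := aG ht, source := B (gr t), target := B (gr 1),
            map_source' := fun x _ => gr_one_s x, map_target' := fun x hx => ?_,
            left_inv' := fun x hx => ?_, right_inv' := fun x hx => ?_,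
            open_source := B_open _, open_target := B_open _,
            continuousOn_toFun := (cont_mp _ _).continuousOn,
            continuousOn_invFun := (cont_mp _ _).continuousOn }, h, rfl⟩
  · exact ms x.1 (C := (fun p => (t p.1, p.2)) ⁻¹' gr t) hx fun p hp => congrArg t hp
  · exact ext_id (f := fun p => (t p.2, p.2)) rfl
      (mem_of_superset hx fun p hp => Prod.ext (Eq.symm hp) rfl)
  · exact ext_id (f := fun p => (p.2, p.2)) rfl
      (mem_of_superset hx fun p hp => Prod.ext (Eq.symm hp) rfl)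

def iH : GG Λ ≃ₜ GG Λ where
  toFun := iG
  invFun := iG
  left_inv _ := rfl
  right_inv _ := rfl
  continuous_toFun := cont_mp _ _
  continuous_invFun := cont_mp _ _

theorem s_mG (g h : GG Λ) : sG (mG g h) = sG h := rfl

theorem r_mG {g h : GG Λ} (e : sG g = rG h) : rG (mG g h) = rG g := by
  obtain ⟨t, ht, hg⟩ := g.2
  rw [mG_eq e ht hg]
  apply Subtype.ext
  have h1 : (rG (aG ht h)).1 = (rG h).1.map fun p => (t p.1, t p.1) := rfl
  rw [h1, ← e]
  exact umap_congr (u := g.1) (f := fun p => (t p.2, t p.2)) (g := fun p => (p.1, p.1))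
    (mem_of_superset hg fun p hp => by
      have h2 : p.1 = t p.2 := hp
      show (t p.2, t p.2) = (p.1, p.1)
      rw [h2])

noncomputable def ET (Λ : Subgroup (Perm X)) : Etale (GG Λ) where
  s := sG
  r := rG
  mul := mG
  inv := iG
  s_s _ := rfl
  r_s _ := rfl
  s_r _ := rfl
  r_r _ := rfl
  s_mul g h _ := s_mG g h
  r_mul _ _ e := r_mG e
  assoc g h k e e' := by
    obtain ⟨t, ht, hg⟩ := g.2
    obtain ⟨t', ht', hh⟩ := h.2
    have h1 : gr (t * t') ∈ (mG g h).1 := by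
      rw [mG_eq e ht hg]
      exact ms h.1 (C := (fun p => (t p.1, p.2)) ⁻¹' gr (t * t')) hh fun p hp => congrArg t hp
    rw [mG_eq ((s_mG g h).trans e') (Λ.mul_mem ht ht') h1, mG_eq (e.trans (r_mG e').symm) ht hg,
      mG_eq e' ht' hh]
    rfl
  mul_s g := by
    obtain ⟨t, ht, hg⟩ := g.2
    rw [mG_eq (h := sG g) rfl ht hg]
    exact ext_id (f := fun p => (t p.2, p.2)) rfl
      (mem_of_superset hg fun p hp => Prod.ext (Eq.symm hp) rfl)
  r_mul_self g := by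
    rw [mG_eq (g := rG g) (h := g) rfl Λ.one_mem (gr_one_r g)]
    rfl
  s_inv _ := rfl
  r_inv _ := rfl
  mul_inv g := by
    obtain ⟨t, ht, hg⟩ := g.2
    rw [mG_eq (h := iG g) rfl ht hg]
    exact Subtype.ext (umap_congr (u := g.1) (f := fun p => (t p.2, p.1))
      (g := fun p => (p.1, p.1)) (mem_of_superset hg fun p hp => Prod.ext (Eq.symm hp) rfl))
  inv_mul g := by
    obtain ⟨t, ht, hg⟩ := (iG g).2
    rw [mG_eq (g := iG g) (h := g) rfl ht hg]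
    exact Subtype.ext (umap_congr (u := g.1) (f := fun p => (t p.1, p.2))
      (g := fun p => (p.2, p.2)) (ms g.1 (A := Prod.swap ⁻¹' gr t) hg fun p hp => Prod.ext (Eq.symm hp) rfl))
  cont_mul := by
    refine continuousOn_of_locally_continuousOn fun p _ => ?_
    obtain ⟨t, ht, hg⟩ := p.1.2
    refine ⟨Prod.fst ⁻¹' B (gr t), (B_open _).preimage continuous_fst, hg, ?_⟩
    have h1 : Continuous fun q : GG Λ × GG Λ => aG ht q.2 := (cont_mp _ _).comp continuous_snd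
    exact h1.continuousOn.congr fun q hq => mG_eq hq.1 ht hq.2
  cont_inv := cont_mp _ _
  s_loc := sG_loc
  r_loc := sG_loc.comp (iH (Λ := Λ)).isLocalHomeomorph

theorem cpt_fin {K : Set (GG Λ)} (hK : IsCompact (closure K)) :
    ∃ F : Set (Perm X), F.Finite ∧ F ⊆ Λ ∧ ∀ g ∈ K, ∃ t ∈ F, gr t ∈ g.1 := by
  obtain ⟨F, h1, h2, h3⟩ := hK.elim_finite_subcover_image (b := (Λ : Set (Perm X)))
    (c := fun t => B (gr t)) (fun t _ => B_open _) (fun g _ => by
      obtain ⟨t, ht, h⟩ := g.2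
      exact Set.mem_biUnion ht h)
  refine ⟨F, h2, h1, fun g hg => ?_⟩
  simpa [B] using h3 (subset_closure hg)

theorem fin_cpt {K : Set (GG Λ)} {F : Set (Perm X)} (h1 : F.Finite) (h2 : F ⊆ Λ)
    (h3 : ∀ g ∈ K, ∃ t ∈ F, gr t ∈ g.1) : IsCompact (closure K) := by
  have h4 : IsCompact (⋃ t ∈ F, (B (gr t) : Set (GG Λ))) :=
    h1.isCompact_biUnion fun t ht => B_compact (h2 ht)
  refine h4.of_isClosed_subset isClosed_closure (closure_minimal (fun g hg => ?_) h4.isClosed)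
  obtain ⟨t, ht, h⟩ := h3 g hg
  exact Set.mem_biUnion ht h

theorem sub_equiv {ρ : X → X → Prop} (hρ : Equivalence ρ) :
    (ET Λ).IsSub (B {p | ρ p.1 p.2}) := by
  refine ⟨fun g hg h hh e => ?_, fun g hg =>
    ms g.1 (C := Prod.swap ⁻¹' {p | ρ p.1 p.2}) hg fun p hp => hρ.symm hp⟩
  obtain ⟨t, ht, h1⟩ := g.2
  show {p : X × X | ρ p.1 p.2} ∈ (mG g h).1
  rw [mG_eq e ht h1]
  have h2 := (key e {y | ρ (t y) y}).1 (mem_of_superset (inter_mem h1 hg) fun p hp => by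
    have h3 : p.1 = t p.2 := hp.1
    have h4 : ρ p.1 p.2 := hp.2
    show ρ (t p.2) p.2
    rwa [← h3])
  exact ms h.1 (C := (fun p => (t p.1, p.2)) ⁻¹' {p | ρ p.1 p.2}) (mi h2 hh)
    fun p hp => hρ.trans hp.1 hp.2

theorem dad {d : ℕ} (hP : ∀ F : Set (Perm X), F.Finite → F ⊆ Λ → ∃ c : X → Fin (d + 1),
    ∃ F' : Set (Perm X), F'.Finite ∧ F' ⊆ Λ ∧ ∀ x y,
      Relation.EqvGen (fun a b => c a = c b ∧ ∃ t ∈ F, a = t b) x y → ∃ t ∈ F', x = t y) :
    (ET Λ).DadLE d := by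
  intro K _ hK
  obtain ⟨F, h1, h2, h3⟩ := cpt_fin hK
  obtain ⟨c, F', h4, h5, h6⟩ := hP F h1 h2
  have cov : ∀ g : GG Λ, gr 1 ∈ g.1 → g ∈ ⋃ i, B {p | p.1 = p.2 ∧ c p.1 = i} := by
    intro g hg
    have : (⋃ i ∈ (Set.univ : Set (Fin (d + 1))), {p : X × X | p.1 = p.2 ∧ c p.1 = i}) ∈ g.1 :=
      mem_of_superset hg fun p hp => Set.mem_biUnion (Set.mem_univ (c p.1)) ⟨hp, rfl⟩
    obtain ⟨i, _, hi⟩ := (Ultrafilter.finite_biUnion_mem_iff Set.finite_univ).1 this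
    exact Set.mem_iUnion.2 ⟨i, hi⟩
  refine ⟨fun i => B {p | p.1 = p.2 ∧ c p.1 = i}, fun i => ⟨B_open _, fun g hg =>
    s_of_unit (mem_of_superset hg fun p hp => hp.1)⟩, ?_, fun i => fin_cpt h4 h5 fun g hg => ?_⟩
  · rintro _ (⟨g, _, rfl⟩ | ⟨g, _, rfl⟩)
    · exact cov _ (gr_one_s g)
    · exact cov _ (gr_one_r g)
  · have h7 := hg _ ⟨sub_equiv (Relation.EqvGen.is_equivalence
      (fun a b => c a = c b ∧ ∃ t ∈ F, a = t b)), fun g hg => by
        obtain ⟨t, ht, h⟩ := h3 g hg.1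
        have a1 : {p : X × X | p.2 = p.2 ∧ c p.2 = i} ∈ g.1 := hg.2.1
        have a2 : {p : X × X | p.1 = p.1 ∧ c p.1 = i} ∈ g.1 := hg.2.2
        exact ms g.1 (mi h (mi a1 a2)) fun p hp =>
          Relation.EqvGen.rel _ _ ⟨hp.2.2.2.trans hp.2.1.2.symm, t, ht, hp.1⟩⟩
    have h8 : (⋃ t ∈ F', gr t) ∈ g.1 := ms g.1 h7 fun p hp => by
      obtain ⟨t, ht, h⟩ := h6 _ _ hp
      exact Set.mem_biUnion ht h
    exact (Ultrafilter.finite_biUnion_mem_iff h4).1 h8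

def In (H : Set (GG Λ)) (x y : X) : Prop := ∃ g ∈ H, g.1 = pure (x, y)

theorem In.symm {H : Set (GG Λ)} (hH : (ET Λ).IsSub H) {x y : X} (h : In H x y) : In H y x := by
  obtain ⟨g, hg, e⟩ := h
  refine ⟨iG g, hH.2 g hg, ?_⟩
  show g.1.map Prod.swap = _
  rw [e]; rfl

theorem In.trans {H : Set (GG Λ)} (hH : (ET Λ).IsSub H) {x y z : X} (h : In H x y)
    (h' : In H y z) : In H x z := by
  obtain ⟨g, hg, e⟩ := h
  obtain ⟨g', hg', e'⟩ := h'
  have h1 : sG g = rG g' := by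
    apply Subtype.ext
    show g.1.map _ = g'.1.map _
    rw [e, e']; rfl
  obtain ⟨t, ht, h2⟩ := g.2
  refine ⟨mG g g', hH.1 g hg g' hg' h1, ?_⟩
  rw [mG_eq h1 ht h2]
  rw [e] at h2
  have h3 : x = t y := h2
  show g'.1.map _ = _
  rw [e', h3]; rfl

theorem In.eqv {H : Set (GG Λ)} (hH : (ET Λ).IsSub H) {ρ : X → X → Prop}
    (h : ∀ a b, ρ a b → In H a b) {x y : X} (e : Relation.EqvGen ρ x y) : x = y ∨ In H x y := by
  induction e with
  | rel a b h1 => exact Or.inr (h a b h1)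
  | refl a => exact Or.inl rfl
  | symm a b _ ih => exact ih.imp Eq.symm (In.symm hH)
  | trans a b c _ _ ih1 ih2 =>
    rcases ih1 with rfl | ih1
    · exact ih2
    · rcases ih2 with rfl | ih2
      · exact Or.inr ih1
      · exact Or.inr (ih1.trans hH ih2)

theorem gen_sub {G : Type} [TopologicalSpace G] (Γ : Etale G) (K U : Set G) :
    Γ.IsSub (Γ.gen K U) :=
  ⟨fun g hg h hh e H hH => hH.1.1 g (hg H hH) h (hh H hH) e, fun g hg H hH => hH.1.2 g (hg H hH)⟩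

theorem not_fdc {ι : Type} (s0 : ι) (E : ι → X → X → Prop)
    (ha : ∀ s, ∃ F : Set (Perm X), F.Finite ∧ F ⊆ Λ ∧ ∀ x y, E s x y → ∃ t ∈ F, x = t y)
    (hb : ∀ s (m : ℕ), ∃ y, ∃ T : Finset X, m ≤ T.card ∧ ∀ x ∈ T, Relation.EqvGen (E s) x y)
    (hc : ∀ s (U : Set X), ∃ s' V, (V = U ∨ V = Uᶜ) ∧ ∀ x y, E s' x y → x ≠ y ∧
      Relation.EqvGen (fun a b => E s a b ∧ a ∈ V ∧ b ∈ V) x y) : ¬ (ET Λ).FDC := by
  classical
  intro hF
  have h0 := hF {H | (IsOpen H ∧ (ET Λ).IsSub H) ∧ ∀ s, ¬ ∀ x y, E s x y → In H x y}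
    (fun H hH => hH.1) ?_ ?_
  · refine h0.2 s0 fun x y h => ?_
    obtain ⟨F, _, h2, h3⟩ := ha s0
    obtain ⟨t, ht, e⟩ := h3 x y h
    exact ⟨⟨pure (x, y), t, h2 ht, e⟩, trivial, rfl⟩
  · intro H h1 h2 h3
    refine ⟨⟨h1, h2⟩, fun s hs => ?_⟩
    obtain ⟨F, h4, _, h6⟩ := cpt_fin h3
    obtain ⟨y, T, h7, h8⟩ := hb s (h4.toFinset.card + 2)
    have h9 : T ⊆ insert y (h4.toFinset.image fun t => t y) := by
      intro x hx
      rcases In.eqv h2 hs (h8 x hx) with h | ⟨g, hg, e⟩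
      · exact h ▸ Finset.mem_insert_self _ _
      · obtain ⟨t, ht, h⟩ := h6 g hg
        rw [e] at h
        exact Finset.mem_insert_of_mem (Finset.mem_image.2 ⟨t, h4.mem_toFinset.2 ht, Eq.symm h⟩)
    have h10 := (Finset.card_le_card h9).trans (Finset.card_insert_le _ _)
    have h11 := Finset.card_image_le (s := h4.toFinset) (f := fun t => t y)
    omega
  · intro H h1 h2 h3
    refine ⟨⟨h1, h2⟩, fun s hs => ?_⟩
    obtain ⟨F, h4, h5, h6⟩ := ha s
    let K : Set (GG Λ) := ⋃ p ∈ {p : X × X | E s p.1 p.2}, B {p}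
    have hK : ∀ g ∈ K, ∃ x y, E s x y ∧ g.1 = pure (x, y) := fun g hg => by
      obtain ⟨p, hp, h⟩ := Set.mem_iUnion₂.1 hg
      obtain ⟨q, hq, e⟩ := Ultrafilter.eq_pure_of_finite_mem (Set.finite_singleton p) h
      exact ⟨p.1, p.2, hp, hq ▸ e⟩
    obtain ⟨U₀, U₁, -, -, hU, ⟨H₀, hH₀, k₀⟩, H₁, hH₁, k₁⟩ := h3 K (fun g hg => by
        obtain ⟨x, y, e, e'⟩ := hK g hg
        obtain ⟨g', hg', e''⟩ := hs x y e
        exact Subtype.ext (e''.trans e'.symm) ▸ hg')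
      (isOpen_biUnion fun p _ => B_open _) (fin_cpt h4 h5 fun g hg => by
        obtain ⟨x, y, e, e'⟩ := hK g hg
        obtain ⟨t, ht, h⟩ := h6 x y e
        exact ⟨t, ht, e' ▸ h⟩)
    obtain ⟨s', V, hV, h7⟩ := hc s {x | In U₀ x x}
    have fin : ∀ W H' : Set (GG Λ), (ET Λ).gen K W ⊆ H' →
        (∀ x ∈ V, In H x x → In W x x) → ∀ x y, E s' x y → In H' x y := by
      intro W H' hW hin x y e
      have h8 := In.eqv (gen_sub (ET Λ) K W) (fun a b hab => by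
        obtain ⟨g, hg, e1⟩ := hs a b hab.1
        have i1 : In H a b := ⟨g, hg, e1⟩
        obtain ⟨ga, hga, ea⟩ := hin a hab.2.1 (i1.trans h2 (i1.symm h2))
        obtain ⟨gb, hgb, eb⟩ := hin b hab.2.2 ((i1.symm h2).trans h2 i1)
        have es : sG g = gb := Subtype.ext (by
          show g.1.map _ = _
          rw [e1, eb]; rfl)
        have er : rG g = ga := Subtype.ext (by
          show g.1.map _ = _
          rw [e1, ea]; rfl)
        refine ⟨g, fun H'' hH'' => hH''.2 ⟨?_, (es ▸ hgb : sG g ∈ W), (er ▸ hga : rG g ∈ W)⟩, e1⟩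
        refine Set.mem_biUnion (x := (a, b)) hab.1 ?_
        show {(a, b)} ∈ g.1
        rw [e1]; rfl) (h7 x y e).2
      obtain ⟨g, hg, e1⟩ := h8.resolve_left (h7 x y e).1
      exact ⟨g, hW hg, e1⟩
    rcases hV with rfl | rfl
    · exact hH₀.2 s' (fin U₀ H₀ k₀ fun x hx _ => hx)
    · refine hH₁.2 s' (fin U₁ H₁ k₁ fun x hx ⟨g, hg, e⟩ => ?_)
      have : g ∈ U₀ ∪ U₁ := hU ▸ ⟨hg, s_of_unit (by rw [e]; rfl)⟩
      exact ⟨g, this.resolve_left fun h => hx ⟨g, h, e⟩, e⟩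

end Pool.Agent.H.MP_153b2f_an
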