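import Mathlib

set_option autoImplicit false

namespace Pool.Agent.H.MP_153b2f_an
open Relation

section
variable {Y : Type}

def N (R : Y → Y → Prop) : ℕ → Y → Y → Prop
  | 0, x, y => x = y
  | n + 1, x, y => ∃ z, N R n x z ∧ (z = y ∨ R z y)

variable {R R' : Y → Y → Prop}

theorem N.mono {n m : ℕ} {x y : Y} (h : N R n x y) (hm : n ≤ m) : N R m x y := by
  induction hm with
  | refl => exact h
  | step _ ih => exact ⟨y, ih, Or.inl rfl⟩

theorem N.refl (n : ℕ) (x : Y) : N R n x x := N.mono (n := 0) rfl (Nat.zero_le n)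

theorem N.imp (hR : ∀ a b, R a b → R' a b) {n : ℕ} {x y : Y} (h : N R n x y) : N R' n x y := by
  induction n generalizing y with
  | zero => exact h
  | succ n ih =>
    obtain ⟨z, h1, h2⟩ := h
    exact ⟨z, ih h1, h2.imp id (hR _ _)⟩

theorem N.trans {n m : ℕ} {x y z : Y} (h : N R n x y) (h' : N R m y z) : N R (n + m) x z := by
  induction m generalizing z with
  | zero => exact h' ▸ h
  | succ m ih =>
    obtain ⟨w, h1, h2⟩ := h'
    exact ⟨w, ih h1, h2⟩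

theorem N.one {x y : Y} (h : R x y) : N R 1 x y := ⟨x, rfl, Or.inr h⟩

theorem N.symm (hs : ∀ a b, R a b → R b a) {n : ℕ} {x y : Y} (h : N R n x y) : N R n y x := by
  induction n generalizing y with
  | zero => exact Eq.symm h
  | succ n ih =>
    obtain ⟨z, h1, h2⟩ := h
    rw [add_comm]
    rcases h2 with rfl | h2
    · exact (ih h1).mono (by omega)
    · exact (N.one (hs _ _ h2)).trans (ih h1)

theorem N.rtg {n : ℕ} {x y : Y} (h : N R n x y) : ReflTransGen R x y := by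
  induction n generalizing y with
  | zero => exact h ▸ ReflTransGen.refl
  | succ n ih =>
    obtain ⟨z, h1, rfl | h2⟩ := h
    · exact ih h1
    · exact (ih h1).tail h2

theorem rtg_N {x y : Y} (h : ReflTransGen R x y) : ∃ n, N R n x y := by
  induction h with
  | refl => exact ⟨0, rfl⟩
  | tail _ h ih =>
    obtain ⟨n, hn⟩ := ih
    exact ⟨n + 1, _, hn, Or.inr h⟩

def St {C : Type} (R : Y → Y → Prop) (r : ℕ) (c : Y → C) (a b : Y) : Prop := c a = c b ∧ N R r a b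

def Good {C : Type} (R : Y → Y → Prop) (r D : ℕ) (c : Y → C) : Prop :=
  ∀ x y, ReflTransGen (St R r c) x y → N R D x y

theorem jump {P : Set Y} (hP : ∀ a b, R' a b → a ∈ P ∧ b ∈ P) {r : ℕ}
    (sp : ∀ p ∈ P, ∀ q ∈ P, N R r p q → p = q) {n : ℕ} (hn : n ≤ r) {x y : Y}
    (h : N (fun a b => R a b ∨ R' a b) n x y) :
    N R n x y ∨ ∃ p ∈ P, ∃ q ∈ P, N R n x p ∧ N R' n p q ∧ N R n q y := by
  induction n generalizing y with
  | zero => exact Or.inl h
  | succ n ih =>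
    obtain ⟨z, h1, h2⟩ := h
    have h3 : (z = y ∨ R z y) ∨ R' z y := by tauto
    rcases ih (by omega) h1 with h4 | ⟨p, hp, q, hq, a1, a2, a3⟩ <;> rcases h3 with h3 | h3
    · exact Or.inl ⟨z, h4, h3⟩
    · exact Or.inr ⟨z, (hP _ _ h3).1, y, (hP _ _ h3).2, h4.mono (by omega),
        (N.one h3).mono (by omega), N.refl _ _⟩
    · exact Or.inr ⟨p, hp, q, hq, a1.mono (by omega), a2.mono (by omega), z, a3, h3⟩
    · have := sp q hq z (hP _ _ h3).1 (a3.mono (by omega))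
      subst this
      exact Or.inr ⟨p, hp, y, (hP _ _ h3).2, a1.mono (by omega), ⟨q, a2, Or.inr h3⟩, N.refl _ _⟩

theorem glue {C : Type} (hs : ∀ a b, R a b → R b a) {P : Set Y}
    (hP : ∀ a b, R' a b → a ∈ P ∧ b ∈ P) {r D D' : ℕ} {c c' : Y → C} (hc : Good R r D c)
    (hc' : Good R' r D' c') (sp : ∀ p ∈ P, ∀ q ∈ P, N R (D + 4 * r) p q → p = q) :
    ∃ e : Y → C, Good (fun a b => R a b ∨ R' a b) r (D + 2 * r + D' + (2 * r + D)) e := by
  classical
  let e : Y → C := fun x => if h : ∃ p ∈ P, N R r x p then c' (Classical.choose h) else c x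
  have e1 : ∀ x, ∀ p ∈ P, N R r x p → e x = c' p := by
    intro x p hp h
    have h1 : ∃ p ∈ P, N R r x p := ⟨p, hp, h⟩
    have h2 := Classical.choose_spec h1
    simp only [e, dif_pos h1]
    rw [sp _ h2.1 p hp (((h2.2.symm hs).trans h).mono (by omega))]
  have e2 : ∀ x, (¬ ∃ p ∈ P, N R r x p) → e x = c x := fun x h => dif_neg h
  refine ⟨e, fun x y h => ?_⟩
  have inv : ((¬ ∃ p ∈ P, N R r y p) ∧ ReflTransGen (St R r c) x y) ∨
      ∃ p ∈ P, ∃ q ∈ P, N R (D + 2 * r) x p ∧ ReflTransGen (St R' r c') p q ∧ c' q = e y ∧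
        (N R r y q ∨ ((¬ ∃ p ∈ P, N R r y p) ∧ ∃ w, N R (2 * r) q w ∧
          ReflTransGen (St R r c) w y)) := by
    induction h with
    | refl =>
      by_cases h : ∃ p ∈ P, N R r x p
      · obtain ⟨p, hp, h⟩ := h
        exact Or.inr ⟨p, hp, p, hp, h.mono (by omega), .refl, (e1 x p hp h).symm, Or.inl h⟩
      · exact Or.inl ⟨h, .refl⟩
    | @tail y y' _ h ih =>
      obtain ⟨hcol, h⟩ := h
      rcases jump hP (fun p hp q hq h => sp p hp q hq (h.mono (by omega))) le_rfl h with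
        h | ⟨p1, hp1, p2, hp2, a1, a2, a3⟩
      · by_cases hn : ∃ p ∈ P, N R r y' p
        · obtain ⟨q', hq', hn⟩ := hn
          rcases ih with ⟨_, i2⟩ | ⟨p, hp, q, hq, i1, i2, i3, i4⟩
          · exact Or.inr ⟨q', hq', q', hq', (((hc _ _ i2).trans h).trans hn).mono (by omega), .refl,
              (e1 _ _ hq' hn).symm, Or.inl hn⟩
          · have : q = q' := by
              apply sp q hq q' hq'
              rcases i4 with i4 | ⟨_, w, i5, i6⟩
              · exact (((i4.symm hs).trans h).trans hn).mono (by omega)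
              · exact (((i5.trans (hc _ _ i6)).trans h).trans hn).mono (by omega)
            subst this
            exact Or.inr ⟨p, hp, q, hq, i1, i2, i3.trans hcol, Or.inl hn⟩
        · rcases ih with ⟨i1, i2⟩ | ⟨p, hp, q, hq, i1, i2, i3, i4⟩
          · exact Or.inl ⟨hn, i2.tail ⟨by rw [← e2 _ i1, ← e2 _ hn, hcol], h⟩⟩
          · refine Or.inr ⟨p, hp, q, hq, i1, i2, i3.trans hcol, Or.inr ⟨hn, ?_⟩⟩
            rcases i4 with i4 | ⟨i7, w, i5, i6⟩
            · exact ⟨y', ((i4.symm hs).trans h).mono (by omega), .refl⟩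
            · exact ⟨w, i5, i6.tail ⟨by rw [← e2 _ i7, ← e2 _ hn, hcol], h⟩⟩
      · rcases ih with ⟨i1, _⟩ | ⟨p, hp, q, hq, i1, i2, i3, i4⟩
        · exact absurd ⟨p1, hp1, a1⟩ i1
        · rcases i4 with i4 | ⟨i7, _⟩
          · have : q = p1 := sp q hq p1 hp1 (((i4.symm hs).trans a1).mono (by omega))
            subst this
            have h5 := e1 _ _ hp2 (a3.symm hs)
            exact Or.inr ⟨p, hp, p2, hp2, i1, i2.tail ⟨by rw [i3, hcol, h5], a2⟩, h5.symm,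
              Or.inl (a3.symm hs)⟩
          · exact absurd ⟨p1, hp1, a1⟩ i7
  have l : ∀ {n a b}, N R n a b → N (fun a b => R a b ∨ R' a b) n a b :=
    fun h => h.imp fun _ _ => Or.inl
  rcases inv with ⟨_, i2⟩ | ⟨p, _, q, _, i1, i2, _, i4⟩
  · exact (l (hc _ _ i2)).mono (by omega)
  · refine ((l i1).trans ((hc' _ _ i2).imp fun _ _ => Or.inr)).trans (l ?_)
    rcases i4 with i4 | ⟨_, w, i5, i6⟩
    · exact (i4.symm hs).mono (by omega)
    · exact i5.trans (hc _ _ i6)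

theorem fin_good (hs : ∀ a b, R a b → R b a) (hf : {a | ∃ b, R a b}.Finite) :
    ∃ D, ∀ x y, ReflTransGen R x y → N R D x y := by
  have h1 : ∀ᶠ D in Filter.atTop, ∀ p ∈ {a | ∃ b, R a b} ×ˢ {a | ∃ b, R a b},
      ReflTransGen R p.1 p.2 → N R D p.1 p.2 := by
    rw [(hf.prod hf).eventually_all]
    intro p _
    by_cases h : ReflTransGen R p.1 p.2
    · obtain ⟨n, hn⟩ := rtg_N h
      filter_upwards [Filter.eventually_ge_atTop n] with D hD _ using hn.mono hD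
    · exact Filter.Eventually.of_forall fun _ h' => absurd h' h
  obtain ⟨D, hD⟩ := h1.exists
  refine ⟨D, fun x y h => ?_⟩
  rcases h.cases_head with rfl | ⟨z, h2, _⟩
  · exact N.refl _ _
  · rcases h.cases_tail with rfl | ⟨w, _, h3⟩
    · exact N.refl _ _
    · exact hD (x, y) ⟨⟨z, h2⟩, w, hs _ _ h3⟩ h

theorem sparse [DecidableEq Y] (ρ : Y → Y → Prop) (hs : ∀ a b, ρ a b → ρ b a) (hr : ∀ a, ρ a a)
    (b : ℕ) (hb : ∀ x, ∃ T : Finset Y, T.card ≤ b ∧ ∀ y, ρ x y → y ∈ T) (n : ℕ) :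
    ∀ T : Finset Y, n * (b + 1) ≤ T.card →
      ∃ T' ⊆ T, T'.card = n ∧ ∀ x ∈ T', ∀ y ∈ T', ρ x y → x = y := by
  induction n with
  | zero => exact fun T _ => ⟨∅, by simp, rfl, by simp⟩
  | succ n ih =>
    intro T hT
    rw [Nat.succ_mul] at hT
    rcases T.eq_empty_or_nonempty with rfl | ⟨x, hx⟩
    · simp at hT
    · obtain ⟨Bx, h1, h2⟩ := hb x
      obtain ⟨T', h3, h4, h5⟩ := ih (T \ Bx) (by have := Finset.le_card_sdiff Bx T; omega)
      have h6 : ∀ y ∈ T', ¬ ρ x y := fun y hy h => (Finset.mem_sdiff.1 (h3 hy)).2 (h2 y h)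
      refine ⟨insert x T', Finset.insert_subset hx (h3.trans Finset.sdiff_subset), ?_, ?_⟩
      · rw [Finset.card_insert_of_notMem fun h => h6 x h (hr x), h4]
      · intro a ha a' ha' h
        rcases Finset.mem_insert.1 ha with rfl | ha1 <;> rcases Finset.mem_insert.1 ha' with rfl | ha2
        · rfl
        · exact absurd h (h6 _ ha2)
        · exact absurd (hs _ _ h) (h6 _ ha1)
        · exact h5 _ ha1 _ ha2 h

end

def T0 (a b : ℕ × ℕ) : Prop :=
  (b.1 = a.1 + 1 ∧ b.2 = a.2) ∨ (b.1 = a.1 ∧ b.2 = a.2 + 1) ∨ (b.1 = a.1 + 1 ∧ b.2 = a.2 + 1)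

def T (a b : ℕ × ℕ) : Prop := T0 a b ∨ T0 b a

def box (m : ℕ) : Set (ℕ × ℕ) := {a | a.1 < m ∧ a.2 < m}

def Tc (m : ℕ) (V : ℕ × ℕ → Prop) (a b : ℕ × ℕ) : Prop :=
  a ∈ box m ∧ b ∈ box m ∧ T a b ∧ V a ∧ V b

open Classical in
noncomputable def wt (p : Prop) : ZMod 2 := if p then 1 else 0

theorem tri0 (a b c a' b' c' : Prop) (k1 : a → ¬ b → ¬ c → (b' ↔ c')) (k2 : b → ¬ a → ¬ c → (a' ↔ c'))
    (k3 : c → ¬ a → ¬ b → (a' ↔ b')) :
    wt ((a ∧ ¬ b ∧ b') ∨ (b ∧ ¬ a ∧ a')) + wt ((b ∧ ¬ c ∧ c') ∨ (c ∧ ¬ b ∧ b')) =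
      wt ((a ∧ ¬ c ∧ c') ∨ (c ∧ ¬ a ∧ a')) := by
  have two : (1 : ZMod 2) + 1 = 0 := rfl
  unfold wt
  by_cases a <;> by_cases b <;> by_cases c <;> by_cases a' <;> by_cases b' <;> by_cases c' <;>
    simp_all

theorem hex (m : ℕ) (V : ℕ × ℕ → Prop) :
    (∃ j j', (0, j) ∈ box (m + 1) ∧ ReflTransGen (Tc (m + 1) V) (0, j) (m, j')) ∨
    ∃ i i', (i, 0) ∈ box (m + 1) ∧ ReflTransGen (Tc (m + 1) fun a => ¬ V a) (i, 0) (i', m) := by
  classical
  by_contra hcon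
  rw [not_or] at hcon
  obtain ⟨hc1, hc2⟩ := hcon
  let A : ℕ × ℕ → Prop := fun u => u.1 = 0 ∨ ∃ j, (0, j) ∈ box (m + 1) ∧ V (u.1 - 1, u.2) ∧
    ReflTransGen (Tc (m + 1) V) (0, j) (u.1 - 1, u.2)
  let Bl : ℕ × ℕ → Prop := fun u => ∃ i, (i, 0) ∈ box (m + 1) ∧
    ReflTransGen (Tc (m + 1) fun a => ¬ V a) (i, 0) (u.1 - 1, u.2)
  let bx : ℕ × ℕ → Prop := fun u => u.1 < m + 2 ∧ u.2 < m + 1
  have F1 : ∀ u v, bx u → bx v → T u v → A u → ¬ A v → ¬ V (v.1 - 1, v.2) := by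
    intro u v hu hv h hA hB hV
    have h0 : v.1 ≠ 0 := fun h => hB (Or.inl h)
    apply hB
    right
    by_cases h1 : u.1 = 0
    · have : v.1 - 1 = 0 := by simp only [T, T0] at h; omega
      refine ⟨v.2, ⟨by simp, hv.2⟩, hV, ?_⟩
      rw [this]
    · obtain ⟨j, hj, h2, h3⟩ := hA.resolve_left h1
      refine ⟨j, hj, hV, h3.tail ⟨⟨?_, hu.2⟩, ⟨?_, hv.2⟩, ?_, h2, hV⟩⟩
      · have := hu.1; show u.1 - 1 < m + 1; omega
      · have := hv.1; show v.1 - 1 < m + 1; omega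
      · simp only [T, T0] at h ⊢; omega
  have F2 : ∀ u v, bx u → bx v → T u v → ¬ A u → ¬ A v → ¬ V (u.1 - 1, u.2) →
      ¬ V (v.1 - 1, v.2) → Bl u → Bl v := by
    intro u v hu hv h hA hB h1 h2 ⟨i, hi, h3⟩
    have a1 : u.1 ≠ 0 := fun h => hA (Or.inl h)
    have a2 : v.1 ≠ 0 := fun h => hB (Or.inl h)
    refine ⟨i, hi, h3.tail ⟨⟨?_, hu.2⟩, ⟨?_, hv.2⟩, ?_, h1, h2⟩⟩
    · have := hu.1; show u.1 - 1 < m + 1; omega
    · have := hv.1; show v.1 - 1 < m + 1; omega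
    · simp only [T, T0] at h ⊢; omega
  have hR : ∀ j, ¬ A (m + 1, j) := by
    rintro j (h | ⟨j0, h1, _, h2⟩)
    · simp at h
    · exact hc1 ⟨j0, j, h1, h2⟩
  have a1 : ∀ j, A (0, j) := fun j => Or.inl rfl
  have b1 : ∀ i, i ≤ m + 1 → Bl (i, 0) := fun i hi =>
    ⟨i - 1, ⟨by show i - 1 < m + 1; omega, by simp⟩, .refl⟩
  have nb : ∀ i, ¬ Bl (i, m) := fun i ⟨i0, h1, h2⟩ => hc2 ⟨i0, _, h1, h2⟩
  clear_value A Bl
  clear hc1 hc2
  let w : ℕ × ℕ → ℕ × ℕ → ZMod 2 := fun u v =>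
    wt ((A u ∧ ¬ A v ∧ Bl v) ∨ (A v ∧ ¬ A u ∧ Bl u))
  have two : (1 : ZMod 2) + 1 = 0 := rfl
  have Ts : ∀ u v, T u v → T v u := fun _ _ h => h.symm
  have tri : ∀ u v z, bx u → bx v → bx z → T u v → T v z → T u z → w u v + w v z = w u z := by
    intro u v z hu hv hz h1 h2 h3
    have k1 : A u → ¬ A v → ¬ A z → (Bl v ↔ Bl z) := fun a b c =>
      ⟨F2 v z hv hz h2 b c (F1 u v hu hv h1 a b) (F1 u z hu hz h3 a c),
        F2 z v hz hv (Ts _ _ h2) c b (F1 u z hu hz h3 a c) (F1 u v hu hv h1 a b)⟩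
    have k2 : A v → ¬ A u → ¬ A z → (Bl u ↔ Bl z) := fun a b c =>
      ⟨F2 u z hu hz h3 b c (F1 v u hv hu (Ts _ _ h1) a b) (F1 v z hv hz h2 a c),
        F2 z u hz hu (Ts _ _ h3) c b (F1 v z hv hz h2 a c) (F1 v u hv hu (Ts _ _ h1) a b)⟩
    have k3 : A z → ¬ A u → ¬ A v → (Bl u ↔ Bl v) := fun a b c =>
      ⟨F2 u v hu hv h1 b c (F1 z u hz hu (Ts _ _ h3) a b) (F1 z v hz hv (Ts _ _ h2) a c),
        F2 v u hv hu (Ts _ _ h1) c b (F1 z v hz hv (Ts _ _ h2) a c) (F1 z u hz hu (Ts _ _ h3) a b)⟩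
    exact tri0 _ _ _ _ _ _ k1 k2 k3
  have row : ∀ j < m, ∀ n ≤ m + 1, ∑ i ∈ Finset.range n, w (i, j) (i + 1, j) + w (n, j) (n, j + 1) =
      ∑ i ∈ Finset.range n, w (i, j + 1) (i + 1, j + 1) := by
    intro j hj n hn
    induction n with
    | zero =>
      simp [w, wt, a1]
    | succ n ih =>
      rw [Finset.sum_range_succ, Finset.sum_range_succ, ← ih (by omega), add_assoc, add_assoc,
        tri _ _ _ ⟨by simp; omega, by simp; omega⟩ ⟨by simp; omega, by simp; omega⟩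
          ⟨by simp; omega, by simp; omega⟩ (by simp [T, T0]) (by simp [T, T0]) (by simp [T, T0]),
        tri _ _ _ ⟨by simp; omega, by simp; omega⟩ ⟨by simp; omega, by simp; omega⟩
          ⟨by simp; omega, by simp; omega⟩ (by simp [T, T0]) (by simp [T, T0]) (by simp [T, T0])]
  have top : ∀ n ≤ m + 1, ∑ i ∈ Finset.range n, w (i, 0) (i + 1, 0) = if A (n, 0) then 0 else 1 := by
    intro n hn
    induction n with
    | zero => rw [if_pos (a1 0)]; simp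
    | succ n ih =>
      rw [Finset.sum_range_succ, ih (by omega)]
      have b2 := b1 n (by omega)
      have b3 := b1 (n + 1) hn
      simp only [w, wt]
      by_cases a : A (n, 0) <;> by_cases b : A (n + 1, 0) <;> simp [a, b, b2, b3, two]
  have all : ∀ j ≤ m, ∑ i ∈ Finset.range (m + 1), w (i, j) (i + 1, j) = 1 := by
    intro j hj
    induction j with
    | zero => rw [top _ le_rfl, if_neg (hR 0)]
    | succ j ih =>
      rw [← row j (by omega) _ le_rfl, ih (by omega)]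
      simp [w, wt, hR]
  have h1 := all m le_rfl
  simp [w, wt, nb] at h1

theorem ivt {R : ℕ × ℕ → ℕ × ℕ → Prop} (f : ℕ × ℕ → ℕ) (hf : ∀ a b, R a b → f b ≤ f a + 1)
    {a b : ℕ × ℕ} (h : ReflTransGen R a b) (ha : f a = 0) :
    ∀ i ≤ f b, ∃ c, f c = i ∧ ReflTransGen R a c := by
  induction h with
  | refl => exact fun i hi => ⟨a, by omega, .refl⟩
  | @tail b c h1 h2 ih =>
    intro i hi
    have := hf _ _ h2
    rcases hi.lt_or_eq with hi | hi
    · exact ih i (by omega)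
    · exact ⟨c, hi.symm, h1.tail h2⟩

theorem big0 {R : ℕ × ℕ → ℕ × ℕ → Prop} (f : ℕ × ℕ → ℕ) (hf : ∀ a b, R a b → f b ≤ f a + 1)
    {a b : ℕ × ℕ} (h : ReflTransGen R a b) (ha : f a = 0) :
    ∃ S : Finset (ℕ × ℕ), f b ≤ S.card ∧ ∀ c ∈ S, ReflTransGen R a c := by
  choose! g h1 h2 using ivt f hf h ha
  refine ⟨(Finset.range (f b)).image g, ?_, fun c hc => ?_⟩
  · rw [Finset.card_image_of_injOn, Finset.card_range]
    intro i hi j hj e
    rw [← h1 i (Finset.mem_range.1 hi).le, ← h1 j (Finset.mem_range.1 hj).le, e]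
  · obtain ⟨i, hi, rfl⟩ := Finset.mem_image.1 hc
    exact h2 i (Finset.mem_range.1 hi).le

theorem big (m : ℕ) (V : ℕ × ℕ → Prop) : ∃ W, (W = V ∨ W = fun a => ¬ V a) ∧
    ∃ a ∈ box (m + 1), ∃ S : Finset (ℕ × ℕ), m ≤ S.card ∧
      ∀ c ∈ S, ReflTransGen (Tc (m + 1) W) a c := by
  rcases hex m V with ⟨j, j', h1, h2⟩ | ⟨j, j', h1, h2⟩
  · exact ⟨_, Or.inl rfl, _, h1, big0 Prod.fst (fun a b h => by
      have := h.2.2.1; simp only [T, T0] at this; omega) h2 rfl⟩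
  · exact ⟨_, Or.inr rfl, _, h1, big0 Prod.snd (fun a b h => by
      have := h.2.2.1; simp only [T, T0] at this; omega) h2 rfl⟩

def Gr (m : ℕ) (q : ℕ × ℕ → ℕ) (x y : ℕ) : Prop :=
  ∃ a ∈ box m, ∃ b ∈ box m, T a b ∧ x = q a ∧ y = q b

theorem Gr.symm {m : ℕ} {q : ℕ × ℕ → ℕ} (x y : ℕ) (h : Gr m q x y) : Gr m q y x := by
  obtain ⟨a, ha, b, hb, h1, h2, h3⟩ := h
  exact ⟨b, hb, a, ha, h1.symm, h3, h2⟩

theorem grid_good {m : ℕ} {q : ℕ × ℕ → ℕ} (hq : Set.InjOn q (box m)) (r : ℕ) :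
    ∃ c : ℕ → Fin 2 × Fin 2, Good (Gr m q) r (2 * r) c := by
  classical
  let g : ℕ → ℕ × ℕ := Function.invFunOn q (box m)
  have hg : ∀ a ∈ box m, g (q a) = a := fun a ha => hq.leftInvOn_invFunOn ha
  refine ⟨fun x => (⟨(g x).1 / (r + 1) % 2, Nat.mod_lt _ two_pos⟩,
    ⟨(g x).2 / (r + 1) % 2, Nat.mod_lt _ two_pos⟩), fun x y h => ?_⟩
  have k1 : ∀ n x y, N (Gr m q) n x y → x = y ∨ ∃ a ∈ box m, ∃ b ∈ box m, x = q a ∧ y = q b ∧
      a.1 ≤ b.1 + n ∧ b.1 ≤ a.1 + n ∧ a.2 ≤ b.2 + n ∧ b.2 ≤ a.2 + n := by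
    intro n
    induction n with
    | zero => exact fun x y h => Or.inl h
    | succ n ih =>
      rintro x y ⟨z, h1, h2⟩
      rcases h2 with rfl | ⟨a, ha, b, hb, h2, rfl, rfl⟩
      · rcases ih _ _ h1 with h | ⟨a, ha, b, hb, e1, e2, h⟩
        · exact Or.inl h
        · exact Or.inr ⟨a, ha, b, hb, e1, e2, by omega⟩
      · simp only [T, T0] at h2
        rcases ih _ _ h1 with h | ⟨a', ha', b', hb', e1, e2, h⟩
        · exact Or.inr ⟨a, ha, b, hb, h, rfl, by omega⟩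
        · rw [← hq ha hb' e2] at h
          exact Or.inr ⟨a', ha', b, hb, e1, rfl, by omega⟩
  have dv : ∀ u v : ℕ, u ≤ v + r → u / (r + 1) ≤ v / (r + 1) + 1 := fun u v h => by
    rw [← Nat.add_div_right v (Nat.succ_pos r)]
    exact Nat.div_le_div_right (by omega)
  have k2 : x = y ∨ ∃ a ∈ box m, ∃ b ∈ box m, x = q a ∧ y = q b ∧
      a.1 / (r + 1) = b.1 / (r + 1) ∧ a.2 / (r + 1) = b.2 / (r + 1) := by
    induction h with
    | refl => exact Or.inl rfl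
    | @tail y z _ h ih =>
      rcases k1 _ _ _ h.2 with rfl | ⟨a, ha, b, hb, rfl, rfl, h1, h2, h3, h4⟩
      · exact ih
      · have h5 := h.1
        simp only [hg a ha, hg b hb, Prod.mk.injEq, Fin.mk.injEq] at h5
        have := dv _ _ h1
        have := dv _ _ h2
        have := dv _ _ h3
        have := dv _ _ h4
        rcases ih with e | ⟨a', ha', b', hb', e1, e2, h⟩
        · exact Or.inr ⟨a, ha, b, hb, e, rfl, by omega⟩
        · rw [← hq ha hb' e2] at h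
          exact Or.inr ⟨a', ha', b, hb, e1, rfl, by omega⟩
  have hor : ∀ j < m, ∀ i n, i + n < m → N (Gr m q) n (q (i, j)) (q (i + n, j)) := by
    intro j hj i n
    induction n with
    | zero => exact fun _ => rfl
    | succ n ih =>
      exact fun h => ⟨_, ih (by omega), Or.inr ⟨(i + n, j), ⟨by omega, hj⟩, (i + (n + 1), j),
        ⟨h, hj⟩, Or.inl (Or.inl ⟨rfl, rfl⟩), rfl, rfl⟩⟩
  have ver : ∀ j < m, ∀ i n, i + n < m → N (Gr m q) n (q (j, i)) (q (j, i + n)) := by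
    intro j hj i n
    induction n with
    | zero => exact fun _ => rfl
    | succ n ih =>
      exact fun h => ⟨_, ih (by omega), Or.inr ⟨(j, i + n), ⟨hj, by omega⟩, (j, i + (n + 1)),
        ⟨hj, h⟩, Or.inl (Or.inr (Or.inl ⟨rfl, rfl⟩)), rfl, rfl⟩⟩
  have cl : ∀ u v : ℕ, u / (r + 1) = v / (r + 1) → u ≤ v + r := fun u v h => by
    have h1 := Nat.div_add_mod u (r + 1)
    have h2 := Nat.div_add_mod v (r + 1)
    have h3 : u % (r + 1) < r + 1 := Nat.mod_lt u (Nat.succ_pos r)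
    rw [h] at h1
    omega
  have two : ∀ f : ℕ → ℕ, (∀ i n, i + n < m → N (Gr m q) n (f i) (f (i + n))) →
      ∀ u < m, ∀ v < m, u / (r + 1) = v / (r + 1) → N (Gr m q) r (f u) (f v) := by
    intro f hf u hu v hv h
    have h1 := cl u v h
    have h2 := cl v u h.symm
    rcases le_total u v with h3 | h3
    · obtain ⟨n, rfl⟩ := Nat.exists_eq_add_of_le h3
      exact (hf u n hv).mono (by omega)
    · obtain ⟨n, rfl⟩ := Nat.exists_eq_add_of_le h3
      exact ((hf v n hu).symm Gr.symm).mono (by omega)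
  rcases k2 with rfl | ⟨a, ha, b, hb, rfl, rfl, h1, h2⟩
  · exact N.refl _ _
  · rw [two_mul]
    exact (two (fun i => q (i, a.2)) (hor _ ha.2) _ ha.1 _ hb.1 h1).trans
      (two (fun i => q (b.1, i)) (ver _ hb.1) _ ha.2 _ hb.2 h2)

end Pool.Agent.H.MP_153b2f_an
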