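import Pool.Agent.H.MP_153b2f_an.A
import Pool.Agent.H.MP_153b2f_an.B

set_option autoImplicit false

namespace Pool.Agent.H.MP_153b2f_an
open Relation Equiv Filter

abbrev XX := ℕ × ℕ

open Classical in
noncomputable def mf (M : XX → XX → Prop) (x : XX) : XX :=
  if h : ∃ y, M x y then Classical.choose h else x

theorem mf_or (M : XX → XX → Prop) (x : XX) : (mf M x = x ∧ ¬ ∃ y, M x y) ∨ M x (mf M x) := by
  unfold mf
  split_ifs with h
  · exact Or.inr (Classical.choose_spec h)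
  · exact Or.inl ⟨rfl, h⟩

def Mat (M : XX → XX → Prop) : Prop := (∀ a b, M a b → M b a) ∧ ∀ a b c, M a b → M a c → b = c

theorem mf_eq {M : XX → XX → Prop} (h : Mat M) {x y : XX} (e : M x y) : mf M x = y :=
  h.2 x _ _ ((mf_or M x).resolve_left fun h' => h'.2 ⟨y, e⟩) e

open Classical in
noncomputable def mpm (M : XX → XX → Prop) : Perm XX :=
  if h : Mat M then Function.Involutive.toPerm (mf M) (fun x => by
    rcases mf_or M x with h1 | h1
    · rw [h1.1, h1.1]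
    · exact mf_eq h (h.1 _ _ h1)) else 1

theorem mpm_eq {M : XX → XX → Prop} (h : Mat M) {x y : XX} (e : M x y) : mpm M x = y := by
  rw [mpm, dif_pos h]
  exact mf_eq h e

theorem mpm_or (M : XX → XX → Prop) (x : XX) : mpm M x = x ∨ M x (mpm M x) := by
  unfold mpm
  split_ifs with h
  · exact (mf_or M x).imp And.left id
  · exact Or.inl rfl

structure Nd where
  κ : ℕ → ℕ
  p : ℕ → ℕ × ℕ → ℕ

def Nd.ok (d : Nd) : Prop := Function.Injective d.κ ∧ ∀ m, Set.InjOn (d.p m) (box m)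

def A (d : Nd) (k x y : ℕ) : Prop := ∃ m, d.κ m = k ∧ Gr m (d.p m) x y

def S0 (b : Fin 3 × Fin 3) (a a' : ℕ × ℕ) : Prop := (a.1 + a.2) % 3 = b.2.1 ∧
  ((b.1.1 = 0 ∧ a'.1 = a.1 + 1 ∧ a'.2 = a.2) ∨ (b.1.1 = 1 ∧ a'.1 = a.1 ∧ a'.2 = a.2 + 1) ∨
    (b.1.1 = 2 ∧ a'.1 = a.1 + 1 ∧ a'.2 = a.2 + 1))

def MM (d : Nd) (b : Fin 3 × Fin 3) (z z' : XX) : Prop :=
  z'.1 = z.1 ∧ ∃ m, d.κ m = z.1 ∧ ∃ a ∈ box m, ∃ a' ∈ box m, (S0 b a a' ∨ S0 b a' a) ∧
    z.2 = d.p m a ∧ z'.2 = d.p m a'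

theorem MM_mat {d : Nd} (hd : d.ok) (b : Fin 3 × Fin 3) : Mat (MM d b) := by
  constructor
  · rintro z z' ⟨h, m, h1, a, ha, a', ha', h2, h3, h4⟩
    exact ⟨h.symm, m, h1.trans h.symm, a', ha', a, ha, h2.symm, h4, h3⟩
  · rintro z y y' ⟨h, m, h1, a, ha, a', ha', h2, h3, h4⟩ ⟨k, m', k1, c, hc, c', hc', k2, k3, k4⟩
    obtain rfl : m = m' := hd.1 (h1.trans k1.symm)
    obtain rfl : a = c := hd.2 m ha hc (h3.symm.trans k3)
    have : a' = c' := by
      simp only [S0] at h2 k2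
      exact Prod.ext (by omega) (by omega)
    exact Prod.ext (h.trans k.symm) (by rw [h4, k4, this])

theorem T0_S0 {a a' : ℕ × ℕ} (h : T0 a a') : ∃ b, S0 b a a' := by
  rcases h with h | h | h
  · exact ⟨(0, ⟨_, Nat.mod_lt _ three_pos⟩), rfl, Or.inl ⟨rfl, h⟩⟩
  · exact ⟨(1, ⟨_, Nat.mod_lt _ three_pos⟩), rfl, Or.inr (Or.inl ⟨rfl, h⟩)⟩
  · exact ⟨(2, ⟨_, Nat.mod_lt _ three_pos⟩), rfl, Or.inr (Or.inr ⟨rfl, h⟩)⟩

def gens (Z : Set Nd) : Set (Perm XX) := Set.image2 (fun d b => mpm (MM d b)) Z Set.univ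

def R (Z : Set Nd) (k x y : ℕ) : Prop := ∃ d ∈ Z, A d k x y

theorem R_symm (Z : Set Nd) (k x y : ℕ) (h : R Z k x y) : R Z k y x := by
  obtain ⟨d, hd, m, h1, h2⟩ := h
  exact ⟨d, hd, m, h1, h2.symm⟩

theorem R_mono {Z Z' : Set Nd} (h : Z ⊆ Z') (k x y : ℕ) (e : R Z k x y) : R Z' k x y := by
  obtain ⟨d, hd, e⟩ := e
  exact ⟨d, h hd, e⟩

theorem L0 (d : Nd) (b : Fin 3 × Fin 3) (z : XX) :
    (mpm (MM d b) z).1 = z.1 ∧ N (R {d} z.1) 1 z.2 (mpm (MM d b) z).2 := by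
  rcases mpm_or (MM d b) z with h | ⟨h, m, h1, a, ha, a', ha', h2, h3, h4⟩
  · rw [h]; exact ⟨rfl, N.refl _ _⟩
  · refine ⟨h, N.one ⟨d, rfl, m, h1, a, ha, a', ha', ?_, h3, h4⟩⟩
    simp only [S0, T, T0] at h2 ⊢
    omega

theorem L0' {d : Nd} (hd : d.ok) {k x y : ℕ} (h : A d k x y) :
    ∃ b, (k, y) = mpm (MM d b) (k, x) := by
  obtain ⟨m, h1, a, ha, a', ha', h2, h3, h4⟩ := h
  rcases h2 with h2 | h2 <;> obtain ⟨b, hb⟩ := T0_S0 h2
  · exact ⟨b, (mpm_eq (x := (k, x)) (y := (k, y)) (MM_mat hd b)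
      ⟨rfl, m, h1, a, ha, a', ha', Or.inl hb, h3, h4⟩).symm⟩
  · exact ⟨b, (mpm_eq (x := (k, x)) (y := (k, y)) (MM_mat hd b)
      ⟨rfl, m, h1, a, ha, a', ha', Or.inr hb, h3, h4⟩).symm⟩

theorem L2 {Z : Set Nd} (hZ : Z.Finite) (ho : ∀ d ∈ Z, d.ok) (n : ℕ) :
    ∃ F : Set (Perm XX), F.Finite ∧ F ⊆ Subgroup.closure (gens Z) ∧
      ∀ k x y, N (R Z k) n x y → ∃ t ∈ F, (k, y) = t (k, x) := by
  induction n with
  | zero =>
    refine ⟨{1}, Set.finite_singleton _, Set.singleton_subset_iff.2 (Subgroup.one_mem _), ?_⟩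
    rintro k x y rfl
    exact ⟨1, rfl, rfl⟩
  | succ n ih =>
    obtain ⟨F, h1, h2, h3⟩ := ih
    refine ⟨F ∪ Set.image2 (· * ·) (gens Z) F,
      h1.union ((hZ.image2 _ Set.finite_univ).image2 _ h1), Set.union_subset h2 ?_, ?_⟩
    · rintro _ ⟨s, hs, t, ht, rfl⟩
      exact Subgroup.mul_mem _ (Subgroup.subset_closure hs) (h2 ht)
    · rintro k x y ⟨z, h4, rfl | ⟨d, hd, h5⟩⟩
      · obtain ⟨t, ht, e⟩ := h3 k x z h4
        exact ⟨t, Or.inl ht, e⟩
      · obtain ⟨t, ht, e⟩ := h3 k x z h4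
        obtain ⟨b, hb⟩ := L0' (ho d hd) h5
        exact ⟨_, Or.inr ⟨_, ⟨d, hd, b, trivial, rfl⟩, t, ht, rfl⟩, by rw [hb, e]; rfl⟩

def Bd {ι : Type} (D : ι → Nd) (S : Set ι) (r : ℕ) (t : Perm XX) : Prop :=
  ∀ z, (t z).1 = z.1 ∧ N (R (D '' S) z.1) r z.2 (t z).2

theorem Bd.mono {ι : Type} {D : ι → Nd} {S S' : Set ι} {r r' : ℕ} {t : Perm XX} (h : Bd D S r t)
    (hS : S ⊆ S') (hr : r ≤ r') : Bd D S' r' t :=
  fun z => ⟨(h z).1, ((h z).2.imp (R_mono (Set.image_mono hS) _)).mono hr⟩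

theorem L1 {ι : Type} (D : ι → Nd) {t : Perm XX} (ht : t ∈ Subgroup.closure (gens (Set.range D))) :
    ∃ S : Set ι, S.Finite ∧ ∃ r, Bd D S r t := by
  induction ht using Subgroup.closure_induction with
  | mem t ht =>
    obtain ⟨_, ⟨s, rfl⟩, b, _, rfl⟩ := ht
    exact ⟨{s}, Set.finite_singleton _, 1, fun z => by rw [Set.image_singleton]; exact L0 _ _ z⟩
  | one => exact ⟨∅, Set.finite_empty, 0, fun z => ⟨rfl, rfl⟩⟩
  | mul t t' _ _ ih ih' =>
    obtain ⟨S, hS, r, h⟩ := ih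
    obtain ⟨S', hS', r', h'⟩ := ih'
    refine ⟨S ∪ S', hS.union hS', r' + r, fun z => ?_⟩
    have h1 := h.mono (Set.subset_union_left (t := S')) le_rfl (t' z)
    have h2 := h'.mono (Set.subset_union_right (s := S)) le_rfl z
    rw [h2.1] at h1
    exact ⟨h1.1, h2.2.trans h1.2⟩
  | inv t _ ih =>
    obtain ⟨S, hS, r, h⟩ := ih
    refine ⟨S, hS, r, fun z => ?_⟩
    have h1 := h (t⁻¹ z)
    rw [show t (t⁻¹ z) = z by simp] at h1
    exact ⟨h1.1.symm, h1.1 ▸ h1.2.symm (R_symm _ _)⟩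

theorem L1' {ι : Type} (D : ι → Nd) {F : Set (Perm XX)} (hF : F.Finite)
    (h : F ⊆ Subgroup.closure (gens (Set.range D))) :
    ∃ S : Set ι, S.Finite ∧ ∃ r, ∀ t ∈ F, Bd D S r t := by
  induction F, hF using Set.Finite.induction_on with
  | empty => exact ⟨∅, Set.finite_empty, 0, by simp⟩
  | insert _ _ ih =>
    obtain ⟨S, hS, r, h1⟩ := ih ((Set.subset_insert _ _).trans h)
    obtain ⟨S', hS', r', h2⟩ := L1 D (h (Set.mem_insert _ _))
    refine ⟨S ∪ S', hS.union hS', r + r', ?_⟩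
    rintro t (rfl | ht)
    · exact h2.mono Set.subset_union_right (by omega)
    · exact (h1 t ht).mono Set.subset_union_left (by omega)

open Classical in
noncomputable def code (U : Set XX) (n : ℕ) : ℕ :=
  Encodable.encode ((List.range n).map fun i => decide (Nat.unpair i ∈ U))

theorem code_eq {U U' : Set XX} {n n' : ℕ} (h : code U n = code U' n') :
    n = n' ∧ ∀ i < n, (Nat.unpair i ∈ U ↔ Nat.unpair i ∈ U') := by
  have h1 := Encodable.encode_injective h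
  have h2 : n = n' := by simpa using congrArg List.length h1
  subst h2
  refine ⟨rfl, fun i hi => ?_⟩
  simpa using List.map_inj_left.1 h1 i (List.mem_range.2 hi)

theorem ad_fin {U U' : Set XX} (h : U ≠ U') : (Set.range (code U) ∩ Set.range (code U')).Finite := by
  obtain ⟨x, hx⟩ : ∃ x, ¬ (x ∈ U ↔ x ∈ U') := not_forall.1 fun h' => h (Set.ext h')
  refine ((Set.finite_le_nat (Nat.pair x.1 x.2)).image (code U)).subset ?_
  rintro _ ⟨⟨n, rfl⟩, n', e⟩
  refine ⟨n, ?_, rfl⟩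
  by_contra hn
  have := (code_eq e.symm).2 (Nat.pair x.1 x.2) (not_le.1 hn)
  rw [Nat.unpair_pair] at this
  exact hx this

def EE (d : Nd) (z z' : XX) : Prop := z'.1 = z.1 ∧ A d z.1 z.2 z'.2

def Ch (Z : Set Nd) (d : Nd) (U : Set XX) (d' : Nd) : Prop :=
  d'.ok ∧ (∃ μ : ℕ → ℕ, (∀ j, ∃ n, μ j = code U n + 1) ∧ d'.κ = d.κ ∘ μ) ∧
  (∀ j, ∀ a ∈ box j, ∀ a' ∈ box j, N (R Z (d'.κ j)) j (d'.p j a) (d'.p j a') → a = a') ∧
  ∃ V, (V = U ∨ V = Uᶜ) ∧ ∀ j, ∀ a ∈ box j, ∀ a' ∈ box j,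
    EqvGen (fun z z' => EE d z z' ∧ z ∈ V ∧ z' ∈ V) (d'.κ j, d'.p j a) (d'.κ j, d'.p j a')

def Big (d : Nd) (V : Set XX) (m : ℕ) : Prop := ∃ x, ∃ S : Finset ℕ, m ≤ S.card ∧ ∀ y ∈ S,
  EqvGen (fun z z' => EE d z z' ∧ z ∈ V ∧ z' ∈ V) (d.κ (m + 1), x) (d.κ (m + 1), y)

theorem big' {d : Nd} (hd : d.ok) (U : Set XX) (m : ℕ) : Big d U m ∨ Big d Uᶜ m := by
  obtain ⟨W, hW, a, ha, S, h1, h2⟩ := big m fun a => (d.κ (m + 1), d.p (m + 1) a) ∈ U
  have key : ∀ V : Set XX, (W = fun a => (d.κ (m + 1), d.p (m + 1) a) ∈ V) → Big d V m := by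
    rintro V rfl
    have hb : ∀ c ∈ S, c ∈ box (m + 1) := fun c hc => by
      rcases (h2 c hc).cases_tail with rfl | ⟨_, _, h⟩
      · exact ha
      · exact h.2.1
    refine ⟨d.p (m + 1) a, S.image (d.p (m + 1)), ?_, fun y hy => ?_⟩
    · rwa [Finset.card_image_of_injOn ((hd.2 _).mono hb)]
    · obtain ⟨c, hc, rfl⟩ := Finset.mem_image.1 hy
      have h3 := h2 c hc
      clear hy hc
      induction h3 with
      | refl => exact .refl _
      | tail _ h ih =>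
        exact .trans _ _ _ ih (.rel _ _ ⟨⟨rfl, m + 1, rfl, _, h.1, _, h.2.1, h.2.2.1, rfl, rfl⟩,
          h.2.2.2⟩)
  exact hW.imp (key U) (key Uᶜ)

theorem child_ex {Z : Set Nd} (hZ : Z.Finite) (ho : ∀ d ∈ Z, d.ok) {d : Nd} (hd : d.ok)
    (U : Set XX) : ∃ d', Ch Z d U d' := by
  classical
  obtain ⟨V, hV, hf⟩ : ∃ V, (V = U ∨ V = Uᶜ) ∧ ∃ᶠ m in atTop, m ∈ Set.range (code U) ∧ Big d V m := by
    have h1 : ∃ᶠ m in atTop, m ∈ Set.range (code U) := Nat.frequently_atTop_iff_infinite.2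
      (Set.infinite_range_of_injective fun n n' h => (code_eq h).1)
    have h2 : ∃ᶠ m in atTop, (m ∈ Set.range (code U) ∧ Big d U m) ∨
        (m ∈ Set.range (code U) ∧ Big d Uᶜ m) := h1.mono fun m hm => and_or_left.1 ⟨hm, big' hd U m⟩
    rcases frequently_or_distrib.1 h2 with h | h
    · exact ⟨_, Or.inl rfl, h⟩
    · exact ⟨_, Or.inr rfl, h⟩
  choose F hF _ hF2 using L2 hZ ho
  obtain ⟨φ, hφ, h1⟩ := extraction_forall_of_frequently (P := fun j m =>
    (m ∈ Set.range (code U) ∧ Big d V m) ∧ j * j * ((hF j).toFinset.card + 1) ≤ m)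
    fun j => hf.and_eventually (eventually_ge_atTop _)
  have h2 : ∀ j, ∃ q : ℕ × ℕ → ℕ, Set.InjOn q (box j) ∧
      (∀ a ∈ box j, ∀ a' ∈ box j, N (R Z (d.κ (φ j + 1))) j (q a) (q a') → a = a') ∧
      ∀ a ∈ box j, ∀ a' ∈ box j, EqvGen (fun z z' => EE d z z' ∧ z ∈ V ∧ z' ∈ V)
        (d.κ (φ j + 1), q a) (d.κ (φ j + 1), q a') := by
    intro j
    obtain ⟨⟨_, x, S, h3, h4⟩, h5⟩ := h1 j
    obtain ⟨S', h6, h7, h8⟩ := sparse (N (R Z (d.κ (φ j + 1))) j)
      (fun a b h => h.symm (R_symm _ _)) (N.refl j) (hF j).toFinset.card (fun x =>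
        ⟨(hF j).toFinset.image fun t => (t (d.κ (φ j + 1), x)).2, Finset.card_image_le,
          fun y hy => by
            obtain ⟨t, ht, e⟩ := hF2 j _ x y hy
            exact Finset.mem_image.2 ⟨t, (hF j).mem_toFinset.2 ht, by rw [← e]⟩⟩) (j * j) S
      (h5.trans h3)
    have h9 : box j = ↑(Finset.range j ×ˢ Finset.range j) := by
      ext a; simp [box]
    obtain ⟨q, hq, hq'⟩ := Set.Finite.exists_injOn_of_encard_le (s := box j) (t := (S' : Set ℕ))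
      (h9 ▸ Finset.finite_toSet _) (by
        rw [h9, Set.encard_coe_eq_coe_finsetCard, Set.encard_coe_eq_coe_finsetCard, h7]; simp)
    exact ⟨q, hq', fun a ha a' ha' h => hq' ha ha' (h8 _ (hq ha) _ (hq ha') h),
      fun a ha a' ha' => .trans _ _ _ (.symm _ _ (h4 _ (h6 (hq ha)))) (h4 _ (h6 (hq ha')))⟩
  choose q h3 h4 h5 using h2
  refine ⟨⟨fun j => d.κ (φ j + 1), q⟩, ⟨fun j j' h => hφ.injective (Nat.succ_injective (hd.1 h)), h3⟩,
    ⟨fun j => φ j + 1, fun j => ?_, rfl⟩, h4, V, hV, h5⟩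
  obtain ⟨n, hn⟩ := (h1 j).1.1
  exact ⟨n, by rw [hn]⟩

def root : Nd := ⟨id, fun _ a => Nat.pair a.1 a.2⟩

instance : Nonempty Nd := ⟨root⟩

noncomputable def DL : List (Set XX) → List Nd
  | [] => [root]
  | U :: s => Classical.epsilon (Ch {d | d ∈ DL s} ((DL s).headD root) U) :: DL s

noncomputable def D (s : List (Set XX)) : Nd := (DL s).headD root

theorem D_mem (s : List (Set XX)) : D s ∈ DL s := by
  cases s <;> exact List.mem_cons_self

theorem DL_ok (s : List (Set XX)) : ∀ d ∈ DL s, d.ok := by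
  induction s with
  | nil =>
    intro d hd
    rw [List.mem_singleton.1 hd]
    exact ⟨Function.injective_id, fun m a _ b _ h => Prod.ext (Nat.pair_eq_pair.1 h).1
      (Nat.pair_eq_pair.1 h).2⟩
  | cons U s ih =>
    intro d hd
    rcases List.mem_cons.1 hd with rfl | hd
    · exact (Classical.epsilon_spec (child_ex (List.finite_toSet _) ih (ih _ (D_mem s)) U)).1
    · exact ih d hd

theorem D_ok (s : List (Set XX)) : (D s).ok := DL_ok s _ (D_mem s)

theorem D_ch (U : Set XX) (s : List (Set XX)) : Ch {d | d ∈ DL s} (D s) U (D (U :: s)) :=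
  Classical.epsilon_spec (child_ex (List.finite_toSet _) (DL_ok s) (D_ok s) U)

theorem D_suf {a s : List (Set XX)} (h : a <:+ s) : D a ∈ DL s := by
  induction s with
  | nil => rw [List.suffix_nil.1 h]; exact D_mem _
  | cons U s ih =>
    rcases List.suffix_cons_iff.1 h with rfl | h
    · exact D_mem _
    · exact List.mem_cons_of_mem _ (ih h)

def act (s : List (Set XX)) : Set ℕ := Set.range (D s).κ

theorem act_cons (U : Set XX) (s : List (Set XX)) : act (U :: s) ⊆ act s := by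
  obtain ⟨μ, _, h⟩ := (D_ch U s).2.1
  rintro _ ⟨j, rfl⟩
  exact ⟨μ j, by rw [h]; rfl⟩

theorem act_suf {a s : List (Set XX)} (h : a <:+ s) : act s ⊆ act a := by
  induction s with
  | nil => rw [List.suffix_nil.1 h]
  | cons U s ih =>
    rcases List.suffix_cons_iff.1 h with rfl | h
    · exact subset_rfl
    · exact (act_cons U s).trans (ih h)

theorem act_fin : ∀ s s' : List (Set XX), s.length = s'.length → s ≠ s' → (act s ∩ act s').Finite
  | [], [], _, h => absurd rfl h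
  | [], _ :: _, h, _ => by simp at h
  | _ :: _, [], h, _ => by simp at h
  | U :: s, U' :: s', h, h' => by
    by_cases e : s = s'
    · subst e
      obtain ⟨μ, h1, h2⟩ := (D_ch U s).2.1
      obtain ⟨μ', h3, h4⟩ := (D_ch U' s).2.1
      refine ((ad_fin (U := U) (U' := U') fun e => h' (by rw [e])).image
        fun n => (D s).κ (n + 1)).subset ?_
      rintro k ⟨⟨j, hj⟩, j', hj'⟩
      rw [h2] at hj
      rw [h4] at hj'
      have h5 : μ j = μ' j' := (D_ok s).1 (hj.trans hj'.symm)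
      obtain ⟨n, hn⟩ := h1 j
      obtain ⟨n', hn'⟩ := h3 j'
      exact ⟨code U n, ⟨⟨n, rfl⟩, n', by omega⟩, by rw [← hj]; exact congrArg _ hn.symm⟩
    · exact (act_fin s s' (by simpa using h) e).subset
        (Set.inter_subset_inter (act_cons _ _) (act_cons _ _))

theorem ev_uniq {S : Set (List (Set XX))} (hS : S.Finite) : ∀ᶠ k in atTop, ∀ s ∈ S, ∀ s' ∈ S,
    ∀ a, a <:+ s → a.length = s'.length → k ∈ act a → k ∈ act s' → a = s' := by
  rw [hS.eventually_all]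
  intro s _
  rw [hS.eventually_all]
  intro s' _
  have h1 : {a | a <:+ s}.Finite := (List.finite_toSet s.tails).subset fun a ha =>
    (List.mem_tails _ _).2 ha
  refine (h1.eventually_all (p := fun a k => a.length = s'.length → k ∈ act a → k ∈ act s' →
    a = s')).2 fun a _ => ?_
  by_cases e : a.length = s'.length ∧ a ≠ s'
  · rw [← Nat.cofinite_eq_atTop]
    exact mem_of_superset (act_fin a s' e.1 e.2).compl_mem_cofinite
      fun k hk _ h1 h2 => absurd ⟨h1, h2⟩ hk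
  · exact Eventually.of_forall fun k h _ _ => by_contra fun h' => e ⟨h, h'⟩

theorem ev_idx {S : Set (List (Set XX))} (hS : S.Finite) (L : ℕ) :
    ∀ᶠ k in atTop, ∀ s ∈ S, ∀ m, (D s).κ m = k → L ≤ m := by
  rw [hS.eventually_all, ← Nat.cofinite_eq_atTop]
  intro s _
  exact mem_of_superset ((Set.finite_lt_nat L).image (D s).κ).compl_mem_cofinite
    fun k hk m hm => not_lt.1 fun h => hk ⟨m, h, hm⟩

theorem Good.congr {Y C : Type} {R R' : Y → Y → Prop} (h : ∀ a b, R a b ↔ R' a b) {r n : ℕ}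
    {c : Y → C} (g : Good R r n c) : Good R' r n c := by
  have : R = R' := by funext a b; exact propext (h a b)
  exact this ▸ g

theorem Good.mono {Y C : Type} {R : Y → Y → Prop} {r n n' : ℕ}
    {c : Y → C} (g : Good R r n c) (h : n ≤ n') : Good R r n' c := fun x y e => (g x y e).mono h

theorem lev {S : Set (List (Set XX))} (hS : S.Finite) (r n : ℕ) : ∃ D0, ∀ᶠ k in atTop,
    ∃ c : ℕ → Fin 2 × Fin 2, Good (R (D '' {s | s ∈ S ∧ s.length < n}) k) r D0 c := by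
  induction n with
  | zero =>
    refine ⟨0, Eventually.of_forall fun k => ⟨fun _ => 0, fun x y h => ?_⟩⟩
    induction h with
    | refl => rfl
    | tail _ h ih =>
      rcases h.2.rtg.cases_head with rfl | ⟨z, ⟨_, ⟨s, hs, _⟩, _⟩, _⟩
      · exact ih
      · exact absurd hs.2 (Nat.not_lt_zero _)
  | succ n ih =>
    obtain ⟨D0, h⟩ := ih
    refine ⟨D0 + 2 * r + 2 * r + (2 * r + D0), ?_⟩
    filter_upwards [h, ev_uniq hS, ev_idx hS (D0 + 4 * r)] with k ⟨c, hc⟩ h1 h2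
    by_cases e : ∃ s ∈ S, s.length = n ∧ k ∈ act s
    · obtain ⟨s, hs, hn, m, hm⟩ := e
      obtain ⟨c', hc'⟩ := grid_good ((D_ok s).2 m) r
      obtain ⟨e, he⟩ := glue (R_symm _ k) (P := (D s).p m '' box m)
        (fun a b ⟨u, hu, v, hv, _, e1, e2⟩ => ⟨⟨u, hu, e1.symm⟩, v, hv, e2.symm⟩) hc hc' (by
          rintro _ ⟨a, ha, rfl⟩ _ ⟨a', ha', rfl⟩ h3
          cases s with
          | nil =>
            rcases h3.rtg.cases_head with h4 | ⟨z, ⟨_, ⟨s, hs, _⟩, _⟩, _⟩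
            · exact h4
            · have := hs.2
              rw [← hn] at this
              exact absurd this (Nat.not_lt_zero _)
          | cons U s =>
            rw [(D_ch U s).2.2.1 m a ha a' ha' ((h3.mono (h2 _ hs m hm)).imp ?_)]
            rintro x y ⟨_, ⟨s', hs', rfl⟩, h4⟩
            have h5 : s'.length ≤ s.length := by
              have := hs'.2
              rw [← hn, List.length_cons] at this
              omega
            have h6 := List.drop_suffix (s.length - s'.length) s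
            have h7 := h6.trans (List.suffix_cons U s)
            have h8 := h1 _ hs s' hs'.1 _ h7 (by rw [List.length_drop]; omega)
              (act_suf h7 ⟨m, hm⟩) ⟨_, h4.choose_spec.1⟩
            exact ⟨D s', h8 ▸ D_suf h6, hm ▸ h4⟩)
      refine ⟨e, he.congr fun a b => ⟨?_, ?_⟩⟩
      · rintro (⟨_, ⟨s', hs', rfl⟩, h4⟩ | h4)
        · exact ⟨_, ⟨s', ⟨hs'.1, by have := hs'.2; omega⟩, rfl⟩, h4⟩
        · exact ⟨_, ⟨s, ⟨hs, by omega⟩, rfl⟩, m, hm, h4⟩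
      · rintro ⟨_, ⟨s', hs', rfl⟩, m', hm', h4⟩
        rcases Nat.lt_succ_iff_lt_or_eq.1 hs'.2 with h5 | h5
        · exact Or.inl ⟨_, ⟨s', ⟨hs'.1, h5⟩, rfl⟩, m', hm', h4⟩
        · obtain rfl := h1 s hs s' hs'.1 s (List.suffix_refl s) (hn.trans h5.symm) ⟨m, hm⟩ ⟨m', hm'⟩
          obtain rfl := (D_ok s).1 (hm.trans hm'.symm)
          exact Or.inr h4
    · have sub : {s | s ∈ S ∧ s.length < n} ⊆ {s | s ∈ S ∧ s.length < n + 1} :=
        fun s hs => ⟨hs.1, Nat.lt_succ_of_lt hs.2⟩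
      refine ⟨c, (hc.congr fun a b => ⟨R_mono (Set.image_mono sub) _ _ _, ?_⟩).mono (by omega)⟩
      rintro ⟨_, ⟨s', hs', rfl⟩, m', hm', h4⟩
      rcases Nat.lt_succ_iff_lt_or_eq.1 hs'.2 with h5 | h5
      · exact ⟨_, ⟨s', ⟨hs'.1, h5⟩, rfl⟩, m', hm', h4⟩
      · exact absurd ⟨s', hs'.1, h5, m', hm'⟩ e

theorem all_good {S : Set (List (Set XX))} (hS : S.Finite) (r : ℕ) : ∃ D0, ∀ k,
    ∃ c : ℕ → Fin 2 × Fin 2, Good (R (D '' S) k) r D0 c := by
  obtain ⟨n, hn⟩ := (hS.image List.length).bddAbove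
  obtain ⟨D0, h⟩ := lev hS r (n + 1)
  have e : {s | s ∈ S ∧ s.length < n + 1} = S :=
    Set.ext fun s => ⟨fun h => h.1, fun h => ⟨h, Nat.lt_succ_of_le (hn ⟨s, h, rfl⟩)⟩⟩
  rw [e] at h
  obtain ⟨K, hK⟩ := eventually_atTop.1 h
  have h1 : ∀ k, ∃ D1, ∀ x y, ReflTransGen (R (D '' S) k) x y → N (R (D '' S) k) D1 x y := by
    intro k
    refine fin_good (R_symm _ k) ((hS.biUnion (t := fun s => ⋃ m ∈ (D s).κ ⁻¹' {k},
      (D s).p m '' ↑(Finset.range m ×ˢ Finset.range m)) fun s _ =>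
        ((Set.finite_singleton k).preimage (D_ok s).1.injOn).biUnion fun m _ =>
          (Finset.finite_toSet _).image _).subset ?_)
    rintro x ⟨y, _, ⟨s, hs, rfl⟩, m, hm, a, ha, _, _, _, e, _⟩
    exact Set.mem_biUnion hs (Set.mem_biUnion (x := m) hm ⟨a, by simpa [box] using ha, e.symm⟩)
  choose D1 hD1 using h1
  refine ⟨D0 + (Finset.range K).sup D1, fun k => ?_⟩
  rcases lt_or_ge k K with hk | hk
  · refine ⟨fun _ => 0, fun x y h => (hD1 k x y ?_).mono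
      ((Finset.le_sup (Finset.mem_range.2 hk)).trans (Nat.le_add_left _ _))⟩
    induction h with
    | refl => exact .refl
    | tail _ h ih => exact ih.trans h.2.rtg
  · obtain ⟨c, hc⟩ := hK k hk
    exact ⟨c, hc.mono (Nat.le_add_right _ _)⟩

def Lam : Subgroup (Perm XX) := Subgroup.closure (gens (Set.range D))

theorem sub_Lam (S : Set (List (Set XX))) : Subgroup.closure (gens (D '' S)) ≤ Lam :=
  Subgroup.closure_mono (Set.image2_subset_right (Set.image_subset_range _ _))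

theorem rtg_symm {Y : Type} {ρ : Y → Y → Prop} (hs : ∀ a b, ρ a b → ρ b a) {x y : Y}
    (h : ReflTransGen ρ x y) : ReflTransGen ρ y x := by
  induction h with
  | refl => exact .refl
  | tail _ h ih => exact .head (hs _ _ h) ih

theorem main_dad : (ET Lam).DadLE 3 := by
  refine dad fun F h1 h2 => ?_
  obtain ⟨S, hS, r, h3⟩ := L1' D h1 h2
  obtain ⟨D0, h4⟩ := all_good hS r
  choose c hc using h4
  obtain ⟨F', h5, h6, h7⟩ := L2 (hS.image D) (by rintro _ ⟨s, _, rfl⟩; exact D_ok s) D0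
  refine ⟨fun z => finProdFinEquiv (c z.1 z.2), F', h5, h6.trans (sub_Lam S), fun x y h => ?_⟩
  have key : x.1 = y.1 ∧ ReflTransGen (St (R (D '' S) y.1) r (c y.1)) y.2 x.2 := by
    induction h with
    | rel a b h =>
      obtain ⟨e, t, ht, rfl⟩ := h
      have h8 := h3 t ht b
      dsimp only at e
      rw [h8.1] at e
      exact ⟨h8.1, .single ⟨(finProdFinEquiv.injective e).symm, h8.2⟩⟩
    | refl a => exact ⟨rfl, .refl⟩
    | symm a b _ ih =>
      refine ⟨ih.1.symm, ?_⟩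
      rw [ih.1]
      exact rtg_symm (fun u v h => ⟨h.1.symm, h.2.symm (R_symm _ _)⟩) ih.2
    | trans a b e _ _ ih ih' => exact ⟨ih.1.trans ih'.1, ih'.2.trans (ih'.1 ▸ ih.2)⟩
  obtain ⟨t, ht, e⟩ := h7 _ _ _ (hc _ _ _ key.2)
  exact ⟨t, ht, by rw [← key.1] at e; rw [show x = (x.1, x.2) from rfl, e, key.1]⟩

theorem main_fdc : ¬ (ET Lam).FDC := by
  refine not_fdc [] (fun s => EE (D s)) (fun s => ?_) (fun s m => ?_) (fun s U => ?_)
  · obtain ⟨F, h1, h2, h3⟩ := L2 ((Set.finite_singleton s).image D)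
      (by rintro _ ⟨s, _, rfl⟩; exact D_ok s) 1
    refine ⟨F, h1, h2.trans (sub_Lam _), fun x y h => ?_⟩
    obtain ⟨t, ht, e⟩ := h3 x.1 y.2 x.2 (N.one (R_symm _ _ _ _ ⟨_, ⟨s, rfl, rfl⟩, h.2⟩))
    exact ⟨t, ht, by rw [show x = (x.1, x.2) from rfl, e, ← h.1]⟩
  · have key : ∀ V, Big (D s) V m → ∃ y, ∃ T : Finset XX, m ≤ T.card ∧
        ∀ x ∈ T, EqvGen (EE (D s)) x y := by
      rintro V ⟨x, S, h1, h2⟩
      refine ⟨((D s).κ (m + 1), x), S.image fun y => ((D s).κ (m + 1), y), ?_, fun z hz => ?_⟩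
      · rwa [Finset.card_image_of_injective _ fun a b h => congrArg Prod.snd h]
      · obtain ⟨y, hy, rfl⟩ := Finset.mem_image.1 hz
        exact .symm _ _ ((h2 y hy).mono fun _ _ h => h.1)
    exact (big' (D_ok s) ∅ m).elim (key _) (key _)
  · obtain ⟨V, hV, h⟩ := (D_ch U s).2.2.2
    refine ⟨U :: s, V, hV, ?_⟩
    rintro ⟨k, x⟩ ⟨k', y⟩ ⟨h1, m, hm, a, ha, b, hb, h2, h3, h4⟩
    dsimp only at h1 hm h3 h4
    subst h1 hm h3 h4
    refine ⟨fun e => ?_, h m a ha b hb⟩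
    have := (D_ok (U :: s)).2 m ha hb (congrArg Prod.snd e)
    subst this
    simp only [T, T0] at h2
    omega

end Pool.Agent.H.MP_153b2f_an
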