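import Mathlib

set_option autoImplicit false

namespace Pool.Agent.H.MP_153b2f_an

/-- Topological groupoid on `G` whose source and range maps are local homeomorphisms.
The product `mul g h` is only constrained when `s g = r h`. -/
structure Etale (G : Type) [TopologicalSpace G] where
  s : G → G
  r : G → G
  mul : G → G → G
  inv : G → G
  s_s : ∀ g, s (s g) = s g
  r_s : ∀ g, r (s g) = s g
  s_r : ∀ g, s (r g) = r g
  r_r : ∀ g, r (r g) = r g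
  s_mul : ∀ g h, s g = r h → s (mul g h) = s h
  r_mul : ∀ g h, s g = r h → r (mul g h) = r g
  assoc : ∀ g h k, s g = r h → s h = r k → mul (mul g h) k = mul g (mul h k)
  mul_s : ∀ g, mul g (s g) = g
  r_mul_self : ∀ g, mul (r g) g = g
  s_inv : ∀ g, s (inv g) = r g
  r_inv : ∀ g, r (inv g) = s g
  mul_inv : ∀ g, mul g (inv g) = r g
  inv_mul : ∀ g, mul (inv g) g = s g
  cont_mul : ContinuousOn (fun p : G × G => mul p.1 p.2) {p | s p.1 = r p.2}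
  cont_inv : Continuous inv
  s_loc : IsLocalHomeomorph s
  r_loc : IsLocalHomeomorph r

namespace Etale
variable {G : Type} [TopologicalSpace G] (Γ : Etale G)

def units : Set G := {x | Γ.s x = x}

def IsSub (H : Set G) : Prop :=
  (∀ g ∈ H, ∀ h ∈ H, Γ.s g = Γ.r h → Γ.mul g h ∈ H) ∧ ∀ g ∈ H, Γ.inv g ∈ H

/-- the subgroupoid generated by the elements of `K` with source and range in `U` -/
def gen (K U : Set G) : Set G :=
  ⋂₀ {H | Γ.IsSub H ∧ {g | g ∈ K ∧ Γ.s g ∈ U ∧ Γ.r g ∈ U} ⊆ H}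

def DadLE (d : ℕ) : Prop :=
  ∀ K : Set G, IsOpen K → IsCompact (closure K) →
    ∃ U : Fin (d + 1) → Set G, (∀ i, IsOpen (U i) ∧ U i ⊆ Γ.units) ∧
      Γ.s '' K ∪ Γ.r '' K ⊆ ⋃ i, U i ∧ ∀ i, IsCompact (closure (Γ.gen K (U i)))

def Decomp (H : Set G) (C : Set (Set G)) : Prop :=
  ∀ K : Set G, K ⊆ H → IsOpen K → IsCompact (closure K) →
    ∃ U₀ U₁ : Set G, IsOpen U₀ ∧ IsOpen U₁ ∧ U₀ ∪ U₁ = H ∩ Γ.units ∧
      (∃ H₀ ∈ C, Γ.gen K U₀ ⊆ H₀) ∧ ∃ H₁ ∈ C, Γ.gen K U₁ ⊆ H₁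

def FDC : Prop :=
  ∀ D : Set (Set G), (∀ H ∈ D, IsOpen H ∧ Γ.IsSub H) →
    (∀ H, IsOpen H → Γ.IsSub H → IsCompact (closure H) → H ∈ D) →
    (∀ H, IsOpen H → Γ.IsSub H → Γ.Decomp H D → H ∈ D) → Set.univ ∈ D

end Etale

end Pool.Agent.H.MP_153b2f_an
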